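import Pool.Agent.H570R2.ZamAsymp

/-!
Every two-party function on `n`-bit inputs has a ZAM protocol of cost `2^{O(√(n log n))} = 2^{o(n)}`.
-/

namespace Pool.Agent.Results.MP_104b1e_lc.MaxZamSubexp

open Pool.Agent.H570R2 Filter

/-- `Z(n)`: the maximum of `ZAM(f)` over all `f : {0,1}^n × {0,1}^n → {0,1}`. -/
noncomputable def maxZAM (n : ℕ) : ℕ∞ :=
  ⨆ f : (Fin n → Bool) → (Fin n → Bool) → Bool, ZAM f

theorem maxZAM_le (n : ℕ) (hn : 2 ≤ n) :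
    maxZAM n ≤ ((⌊(2 : ℝ) ^ (27 * Real.sqrt (n * Real.logb 2 n))⌋₊ : ℕ) : ℕ∞) := by
  unfold maxZAM
  refine iSup_le (fun f => ?_)
  refine ZAM_le_of_card f n hn ?_
  simp

/-- `Z(n) ≤ 2 ^ (27 √(n log₂ n))` for all `n ≥ 2`; in particular `Z(n) = 2 ^ {o(n)}`. -/
theorem result :
    (∀ n : ℕ, 2 ≤ n →
      maxZAM n ≤ ((⌊(2 : ℝ) ^ (27 * Real.sqrt (n * Real.logb 2 n))⌋₊ : ℕ) : ℕ∞)) ∧
    (∀ ε : ℝ, 0 < ε → ∀ᶠ n : ℕ in atTop,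
      maxZAM n ≤ ((⌊(2 : ℝ) ^ (ε * n)⌋₊ : ℕ) : ℕ∞)) := by
  refine ⟨maxZAM_le, ?_⟩
  intro ε hε
  have h1 := tendsto_natCast_atTop_atTop (R := ℝ) |>.eventually
    (eventually_sqrt_le 27 ε (by norm_num) hε)
  filter_upwards [h1, eventually_ge_atTop 2] with n hn hn2
  refine (maxZAM_le n hn2).trans ?_
  rw [Nat.cast_le]
  apply Nat.floor_le_floor
  exact Real.rpow_le_rpow_of_exponent_le (by norm_num) hn

end Pool.Agent.Results.MP_104b1e_lc.MaxZamSubexp
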